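import Pool.Agent.H91.RF.TargetsA
import Pool.Agent.H91.RF.TargetsF

/-!
# MP_609556_an, module IEU: the derivatives of a solution are bounded by Gaussian averages of
`|u - b|`, `f(b) = 0`
-/

open MeasureTheory Set Filter Topology Metric
open Pool.Agent.H29.TF (hk P hk_nonneg integrable_hk_sub integrable_hk_mul P_const P_sub P_P
  P_nonneg P_mono P_const_mul abs_P_le aesm_P)
open Pool.Agent.H91.RD
open Pool.Agent.H91.RF

namespace Pool.Agent.H87.RF.IEU

variable {N : ℕ}

/-! ### The heat semigroup -/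

/-- comparison of heat kernels -/
theorem hk_le8 {τ : ℝ} (h0 : 0 < τ) (h8 : τ ≤ 8) (z : E N) :
    hk τ z ≤ (8 / τ) ^ ((Module.finrank ℝ (E N) : ℝ) / 2) * hk 8 z := by
  have hpi := Real.pi_pos
  unfold hk
  set n : ℝ := (Module.finrank ℝ (E N) : ℝ) with hn
  have h1 : (4 * Real.pi * τ) ^ (-n / 2) = (8 / τ) ^ (n / 2) * (4 * Real.pi * 8) ^ (-n / 2) := by
    have h2 : (4 * Real.pi * τ) = (8 / τ)⁻¹ * (4 * Real.pi * 8) := by
      field_simp
    rw [h2, Real.mul_rpow (by positivity) (by positivity), Real.inv_rpow (by positivity),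
      neg_div, Real.rpow_neg (by positivity), inv_inv]
  rw [h1, mul_assoc]
  refine mul_le_mul_of_nonneg_left (mul_le_mul_of_nonneg_left ?_ (by positivity)) (by positivity)
  apply Real.exp_le_exp.2
  rw [neg_div, neg_div, neg_le_neg_iff]
  exact div_le_div_of_nonneg_left (by positivity) (by positivity) (by linarith)

/-- comparison of heat semigroups -/
theorem P_le8 {τ : ℝ} (h0 : 0 < τ) (h8 : τ ≤ 8) {g : E N → ℝ} (hg : AEStronglyMeasurable g volume)
    (hg0 : ∀ y, 0 ≤ g y) {M : ℝ} (hM : ∀ y, |g y| ≤ M) (x : E N) :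
    P τ g x ≤ (8 / τ) ^ ((Module.finrank ℝ (E N) : ℝ) / 2) * P 8 g x := by
  unfold P
  rw [← integral_const_mul]
  refine integral_mono (integrable_hk_mul h0 hg hM x)
    ((integrable_hk_mul (by norm_num) hg hM x).const_mul _) fun y => ?_
  simp only
  rw [← mul_assoc]
  exact mul_le_mul_of_nonneg_right (hk_le8 h0 h8 _) (hg0 y)

/-- growth of solutions of the linear equation -/
theorem lin_le (hKREP : T_KREP) (hKBD : T_KBD) {K a b : ℝ} {V z : ℝ → E N → ℝ} (hV : Pt K V)
    (hz : LinD V a b z) {s t : ℝ} (h1 : a ≤ s) (h2 : s < t) (h3 : t ≤ b)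
    (hm : AEStronglyMeasurable (z s) volume) (x : E N) :
    |z t x| ≤ Real.exp (K * (t - s)) * P (t - s) (fun y => |z s y|) x := by
  obtain ⟨M, hM⟩ := hz.bdd
  have hs : s ∈ Icc a b := ⟨h1, by linarith⟩
  have hts : 0 < t - s := by linarith
  rw [hKREP N K a b V z hV hz s t h1 h2 h3 x]
  unfold P
  rw [← integral_const_mul, ← Real.norm_eq_abs]
  have hint : Integrable (fun y => hk (t - s) (x - y) * |z s y|) :=
    integrable_hk_mul hts hm.norm (C := M) (fun y => by
      rw [Real.norm_eq_abs, abs_abs]; exact hM s hs y) x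
  refine norm_integral_le_of_norm_le (hint.const_mul _) (Eventually.of_forall fun y => ?_)
  have h4 := hKBD N K V hV s t h2 x y
  have h5 : 0 ≤ gk V t x s y :=
    le_trans (mul_nonneg (Real.exp_pos _).le (hk_nonneg hts.le _)) h4.1
  rw [norm_mul, Real.norm_of_nonneg h5, Real.norm_eq_abs]
  calc gk V t x s y * |z s y| ≤ Real.exp (K * (t - s)) * hk (t - s) (x - y) * |z s y| :=
        mul_le_mul_of_nonneg_right h4.2 (abs_nonneg _)
    _ = _ := by ring

/-! ### The equation for `u - b` -/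

open Classical in
/-- difference quotient of `f` at `b` -/
noncomputable def dqt (f : ℝ → ℝ) (b s : ℝ) : ℝ := if s = b then 0 else f s / (s - b)

theorem dqt_le {f : ℝ → ℝ} {K : ℝ} (hL : Lip f K) {b : ℝ} (hb : f b = 0) (s : ℝ) :
    |dqt f b s| ≤ K := by
  unfold dqt
  split_ifs with h
  · rw [abs_zero]; exact hL.K0.le
  · have h1 := hL.lip s b
    rw [hb, sub_zero] at h1
    have h2 : 0 < |s - b| := abs_pos.2 (sub_ne_zero.2 h)
    rw [abs_div, div_le_iff₀ h2]
    exact h1

theorem dqt_mul {f : ℝ → ℝ} {b : ℝ} (hb : f b = 0) (s : ℝ) : dqt f b s * (s - b) = f s := by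
  unfold dqt
  split_ifs with h
  · rw [h, hb, zero_mul]
  · have : s - b ≠ 0 := sub_ne_zero.2 h
    field_simp

theorem cont_f {f : ℝ → ℝ} {K : ℝ} (hL : Lip f K) : Continuous f := by
  have : LipschitzWith (Real.toNNReal K) f := LipschitzWith.of_dist_le_mul fun x y => by
    rw [Real.dist_eq, Real.dist_eq, Real.coe_toNNReal _ hL.K0.le]
    exact hL.lip x y
  exact this.continuous

theorem dqt_meas {f : ℝ → ℝ} {K : ℝ} (hL : Lip f K) (b : ℝ) : Measurable (dqt f b) := by
  unfold dqt
  refine Measurable.ite (measurableSet_singleton b) measurable_const ?_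
  exact (cont_f hL).measurable.div (measurable_id.sub_const b)

theorem u_cont {f : ℝ → ℝ} {U : Set (E N)} {u : ℝ → E N → ℝ} (hS : SolM f U u) {t : ℝ}
    (ht : 0 < t) : Continuous (u t) := (hS.sol.c2 t ht).continuous

theorem u_mem {f : ℝ → ℝ} {U : Set (E N)} {u : ℝ → E N → ℝ} (hS : SolM f U u) {t : ℝ}
    (ht : 0 < t) (x : E N) : 0 ≤ u t x ∧ u t x ≤ 1 := by
  have := hS.rng t ht.le x
  unfold lift0 at this
  rwa [if_neg (not_le.2 ht)] at this

/-- the potential of the equation for `u - b` -/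
noncomputable def VV (f : ℝ → ℝ) (b : ℝ) (u : ℝ → E N → ℝ) (t : ℝ) (x : E N) : ℝ :=
  if 0 < t then dqt f b (u t x) else 0

theorem pt_VV {f : ℝ → ℝ} {K : ℝ} (hL : Lip f K) {b : ℝ} (hb : f b = 0) {U : Set (E N)}
    {u : ℝ → E N → ℝ} (hS : SolM f U u) : Pt K (VV f b u) := by
  refine ⟨hL.K0, fun t x => ?_, ?_⟩
  · unfold VV
    split_ifs
    · exact dqt_le hL hb _
    · rw [abs_zero]; exact hL.K0.le
  · classical
    set S : Set (ℝ × E N) := Ioi 0 ×ˢ univ with hSdef
    have hSm : MeasurableSet S := measurableSet_Ioi.prod MeasurableSet.univ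
    have h1 : Measurable (S.piecewise (fun p : ℝ × E N => u p.1 p.2) fun _ => b) :=
      hS.sol.cont.measurable_piecewise continuousOn_const hSm
    have h2 : (fun p : ℝ × E N => VV f b u p.1 p.2) =
        fun p => dqt f b ((S.piecewise (fun p : ℝ × E N => u p.1 p.2) fun _ => b) p) := by
      funext p
      unfold VV
      by_cases hp : 0 < p.1
      · have hpS : p ∈ S := ⟨hp, mem_univ _⟩
        rw [if_pos hp, Set.piecewise_eq_of_mem _ _ _ hpS]
      · have hpS : p ∉ S := fun h => hp h.1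
        rw [if_neg hp, Set.piecewise_eq_of_notMem _ _ _ hpS]
        simp [dqt]
    rw [h2]
    exact (dqt_meas hL b).comp h1

theorem lin_VV {f : ℝ → ℝ} {b : ℝ} (hb1 : b ∈ Icc (0 : ℝ) 1) (hb : f b = 0)
    {U : Set (E N)} {u : ℝ → E N → ℝ} (hS : SolM f U u) {s0 t0 : ℝ} (h0 : 0 < s0) :
    LinD (VV f b u) s0 t0 (fun t x => u t x - b) := by
  refine ⟨⟨1, fun t ht x => ?_⟩, ?_, ?_, ?_⟩
  · have h1 := u_mem hS (h0.trans_le ht.1) x
    rw [abs_le]
    constructor <;> linarith [h1.1, h1.2, hb1.1, hb1.2]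
  · exact (u_cont hS h0).measurable.sub_const b
  · refine (hS.sol.cont.mono fun p hp => ⟨h0.trans hp.1.1, mem_univ _⟩).sub continuousOn_const
  · intro s t hs hst _ x
    have hs0 : 0 < s := h0.trans_le hs
    have hts : 0 < t - s := by linarith
    have h1 := hS.mild.duh s t hs0.le hst x
    unfold lift0 at h1
    rw [if_neg (not_le.2 (hs0.trans hst)), if_neg (not_le.2 hs0)] at h1
    have h2 : ∀ y, |u s y| ≤ 1 := fun y => by
      have := u_mem hS hs0 y
      rw [abs_le]
      constructor <;> linarith [this.1, this.2]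
    have h3 : P (t - s) (fun y => u s y - b) x = P (t - s) (u s) x - b := by
      rw [P_sub x (integrable_hk_mul hts (u_cont hS hs0).aestronglyMeasurable h2 x)
        ((integrable_hk_sub hts x).mul_const b), P_const hts]
    simp only
    rw [h3, h1, sub_add_eq_add_sub]
    congr 2
    refine intervalIntegral.integral_congr fun r hr => ?_
    rw [uIcc_of_le hst.le] at hr
    have hr0 : 0 < r := hs0.trans_le hr.1
    simp only
    congr 1
    funext y
    unfold VV
    rw [if_neg (not_le.2 hr0), if_pos hr0, dqt_mul hb]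

/-! ### The Laplacian -/

theorem lap_le {g : E N → ℝ} (hg : ContDiff ℝ 2 g) {C : ℝ} {x : E N}
    (hC : ∀ h : E N, ‖h‖ = 1 → ‖fderiv ℝ (fun y => fderiv ℝ g y h) x‖ ≤ C) :
    |Laplacian.laplacian g x| ≤ N * C := by
  have hd : DifferentiableAt ℝ (fderiv ℝ g) x :=
    ((hg.fderiv_right (m := 1) (by norm_num)).differentiable (by norm_num)) x
  rw [InnerProductSpace.laplacian_eq_iteratedFDeriv_stdOrthonormalBasis]
  refine (Finset.abs_sum_le_sum_abs _ _).trans ?_
  have h3 : ∀ i ∈ (Finset.univ : Finset (Fin (Module.finrank ℝ (E N)))),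
      |iteratedFDeriv ℝ 2 g x ![(stdOrthonormalBasis ℝ (E N)) i, (stdOrthonormalBasis ℝ (E N)) i]| ≤
        C := by
    intro i _
    rw [iteratedFDeriv_two_apply]
    simp only [Matrix.cons_val_zero, Matrix.cons_val_one]
    set e := (stdOrthonormalBasis ℝ (E N)) i with he
    have h4 : ‖e‖ = 1 := (stdOrthonormalBasis ℝ (E N)).norm_eq_one i
    have h5 := hC e h4
    have h6 : fderiv ℝ (fun y => fderiv ℝ g y e) x e = fderiv ℝ (fderiv ℝ g) x e e := by
      have h7 : HasFDerivAt (fun y => fderiv ℝ g y e) ((fderiv ℝ (fderiv ℝ g) x).flip e) x := by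
        have := hd.hasFDerivAt.clm_apply (hasFDerivAt_const e x)
        simpa using this
      rw [h7.fderiv]
      rfl
    rw [← h6, ← Real.norm_eq_abs]
    have h8 := (fderiv ℝ (fun y => fderiv ℝ g y e) x).le_opNorm e
    rw [h4, mul_one] at h8
    exact h8.trans h5
  refine (Finset.sum_le_sum h3).trans (le_of_eq ?_)
  rw [Finset.sum_const, Finset.card_univ, Fintype.card_fin, finrank_euclideanSpace_fin,
    nsmul_eq_mul]

theorem X (hIEL : T_IEL) (hKREP : T_KREP) (hKBD : T_KBD) (hLINU : T_LINU) : T_IEU := by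
  intro N f K hR hL
  have hK := hL.K0
  obtain ⟨C, hC1, hC⟩ := hIEL N K hK
  have hC0 : 0 < C := by linarith
  set n : ℝ := (Module.finrank ℝ (E N) : ℝ) with hn
  set A2 : ℝ := (8 / 2) ^ (n / 2) with hA2
  set A3 : ℝ := (8 / 3) ^ (n / 2) with hA3
  have hA20 : 0 < A2 := by positivity
  have hA30 : 0 < A3 := by positivity
  set B1 : ℝ := C * (Real.exp K * A3) with hB1
  set B2 : ℝ := N * (C * √2 * (C * √2 * (Real.exp K * A3))) with hB2
  set B3 : ℝ := K * (Real.exp (2 * K) * A2) with hB3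
  have hB10 : 0 ≤ B1 := by positivity
  have hB20 : 0 ≤ B2 := by positivity
  have hB30 : 0 ≤ B3 := by positivity
  refine ⟨1 + B1 + B2 + B3, by linarith, fun U u hS b hb1 hb t ht x => ?_⟩
  set z : ℝ → E N → ℝ := fun t x => u t x - b with hz
  set w : E N → ℝ := fun y => |u (t - 2) y - b| with hw
  have hV := pt_VV hL hb hS
  have hlin : LinD (VV f b u) (t - 2) t z := lin_VV hb1 hb hS (by linarith)
  have hzm : ∀ s, 0 < s → AEStronglyMeasurable (z s) volume := fun s hs =>
    ((u_cont hS hs).sub continuous_const).aestronglyMeasurable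
  have hzb : ∀ s, 0 < s → ∀ y, |z s y| ≤ 1 := fun s hs y => by
    have h1 := u_mem hS hs y
    rw [abs_le]
    simp only [hz]
    constructor <;> linarith [h1.1, h1.2, hb1.1, hb1.2]
  have hwm : AEStronglyMeasurable w volume := (hzm (t - 2) (by linarith)).norm
  have hwb : ∀ y, |w y| ≤ 1 := fun y => by
    rw [hw]
    simp only [abs_abs]
    exact hzb (t - 2) (by linarith) y
  have hw0 : ∀ y, 0 ≤ w y := fun y => abs_nonneg _
  have hP0 : ∀ τ, 0 < τ → ∀ x, 0 ≤ P τ w x := fun τ hτ x => P_nonneg hτ.le hw0 x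
  have hPb : ∀ τ, 0 < τ → ∀ x, |P τ w x| ≤ 1 := fun τ hτ x => abs_P_le hτ hwb x
  -- growth
  have hz1 : ∀ y, |z (t - 1) y| ≤ Real.exp K * P 1 w y := by
    intro y
    have := lin_le hKREP hKBD hV hlin (s := t - 2) (t := t - 1) le_rfl (by linarith) (by linarith)
      (hzm _ (by linarith)) y
    rwa [show t - 1 - (t - 2) = 1 by ring, mul_one] at this
  have hz0 : |z t x| ≤ Real.exp (2 * K) * P 2 w x := by
    have := lin_le hKREP hKBD hV hlin (s := t - 2) (t := t) le_rfl (by linarith) le_rfl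
      (hzm _ (by linarith)) x
    rwa [show t - (t - 2) = 2 by ring, mul_comm K] at this
  -- averages of `|z (t - 1)|`
  have hav : ∀ τ, 0 < τ → ∀ y, P τ (fun y => |z (t - 1) y|) y ≤ Real.exp K * P (τ + 1) w y := by
    intro τ hτ y
    rw [← P_P hτ one_pos hwm hwb y, ← P_const_mul]
    refine P_mono hτ y ?_ ?_ hz1
    · exact integrable_hk_mul hτ (hzm (t - 1) (by linarith)).norm (C := 1) (fun y => by
        rw [Real.norm_eq_abs, abs_abs]
        exact hzb (t - 1) (by linarith) y) y
    · refine integrable_hk_mul hτ (f := fun y => Real.exp K * P 1 w y)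
        ((aesm_P hwm).const_mul _) (C := Real.exp K * 1) (fun y => ?_) y
      rw [abs_mul, abs_of_pos (Real.exp_pos _)]
      exact mul_le_mul_of_nonneg_left (hPb 1 one_pos y) (Real.exp_pos _).le
  have hfz : ∀ s x, fderiv ℝ (z s) x = fderiv ℝ (u s) x := fun s x => by
    rw [hz]
    simp only
    rw [fderiv_sub_const]
  -- gradient at time `t`
  have hg1 : gr u t x ≤ B1 * P 8 w x := by
    have h1 := ((hC _ z _ _ hV hlin).1 (t - 1) t (by linarith) (by linarith) le_rfl
      (by linarith)).2 x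
    rw [show t - (t - 1) = 1 by ring, Real.sqrt_one, div_one, mul_one, hfz] at h1
    have h2 := hav 2 (by norm_num) x
    have h3 := P_le8 (τ := 3) (by norm_num) (by norm_num) hwm hw0 hwb x
    calc gr u t x ≤ C * P 2 (fun y => |z (t - 1) y|) x := h1
      _ ≤ C * (Real.exp K * P (2 + 1) w x) := by gcongr
      _ = C * (Real.exp K * P 3 w x) := by norm_num
      _ ≤ C * (Real.exp K * (A3 * P 8 w x)) := by gcongr
      _ = B1 * P 8 w x := by rw [hB1]; ring
  -- gradient at time `t - 1/2`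
  have hs2 : C / √(1 / 2 : ℝ) = C * √2 := by
    rw [one_div, Real.sqrt_inv, div_inv_eq_mul]
  have hg2 : ∀ y, gr u (t - 1 / 2) y ≤ C * √2 * (Real.exp K * P 2 w y) := by
    intro y
    have h1 := ((hC _ z _ _ hV hlin).1 (t - 1) (t - 1 / 2) (by linarith) (by linarith)
      (by linarith) (by linarith)).2 y
    rw [show t - 1 / 2 - (t - 1) = 1 / 2 by ring, hs2, hfz,
      show (2 : ℝ) * (1 / 2) = 1 by norm_num] at h1
    have h2 := hav 1 one_pos y
    rw [show (1 : ℝ) + 1 = 2 by norm_num] at h2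
    exact h1.trans (mul_le_mul_of_nonneg_left h2 (by positivity))
  -- second derivatives
  obtain ⟨hpt, -, hld, -⟩ := hLINU N f K U u hR hL hS
  have hg3 : ∀ h : E N, ‖h‖ = 1 → ‖fderiv ℝ (fun y => fderiv ℝ (u t) y h) x‖ ≤
      C * √2 * (C * √2 * (Real.exp K * P 3 w x)) := by
    intro h hh
    have hlh := (hld (t - 1) t (by linarith) (by linarith)).1 h
    have h1 := ((hC _ (dx u h) _ _ hpt hlh).1 (t - 1 / 2) t (by linarith) (by linarith) le_rfl
      (by linarith)).2 x
    rw [show t - (t - 1 / 2) = 1 / 2 by ring, hs2, show (2 : ℝ) * (1 / 2) = 1 by norm_num] at h1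
    have h2 : ∀ y, |dx u h (t - 1 / 2) y| ≤ C * √2 * (Real.exp K) * P 2 w y := by
      intro y
      have h3 := (fderiv ℝ (u (t - 1 / 2)) y).le_opNorm h
      rw [hh, mul_one, Real.norm_eq_abs] at h3
      have h4 := hg2 y
      unfold gr at h4
      unfold dx
      linarith
    obtain ⟨M, hM⟩ := hlh.bdd
    have hdm : AEStronglyMeasurable (fun y => |dx u h (t - 1 / 2) y|) volume := by
      have : Continuous (fun y : E N => dx u h (t - 1 / 2) y) := by
        unfold dx
        have h5 : Continuous (fderiv ℝ (u (t - 1 / 2))) :=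
          (hS.sol.c2 (t - 1 / 2) (by linarith)).continuous_fderiv (by norm_num)
        exact h5.clm_apply continuous_const
      exact this.aestronglyMeasurable.norm
    have h6 : P 1 (fun y => |dx u h (t - 1 / 2) y|) x ≤
        P 1 (fun y => C * √2 * (Real.exp K) * P 2 w y) x := by
      refine P_mono one_pos x ?_ ?_ h2
      · exact integrable_hk_mul one_pos hdm (C := M) (fun y => by
          rw [abs_abs]; exact hM (t - 1 / 2) ⟨by linarith, by linarith⟩ y) x
      · refine integrable_hk_mul one_pos (f := fun y => C * √2 * (Real.exp K) * P 2 w y)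
          ((aesm_P hwm).const_mul _) (C := C * √2 * (Real.exp K) * 1) (fun y => ?_) x
        rw [abs_mul, abs_of_nonneg (by positivity : 0 ≤ C * √2 * (Real.exp K))]
        exact mul_le_mul_of_nonneg_left (hPb 2 (by norm_num) y) (by positivity)
    rw [P_const_mul, P_P one_pos (by norm_num) hwm hwb x,
      show (1 : ℝ) + 2 = 3 by norm_num] at h6
    calc ‖fderiv ℝ (fun y => fderiv ℝ (u t) y h) x‖ ≤
        C * √2 * P 1 (fun y => |dx u h (t - 1 / 2) y|) x := h1
      _ ≤ C * √2 * (C * √2 * (Real.exp K) * P 3 w x) := by gcongr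
      _ = _ := by ring
  have hlap : |Laplacian.laplacian (u t) x| ≤ B2 * P 8 w x := by
    refine (lap_le (hS.sol.c2 t (by linarith)) hg3).trans ?_
    have h3 := P_le8 (τ := 3) (by norm_num) (by norm_num) hwm hw0 hwb x
    calc (N : ℝ) * (C * √2 * (C * √2 * (Real.exp K * P 3 w x))) ≤
        (N : ℝ) * (C * √2 * (C * √2 * (Real.exp K * (A3 * P 8 w x)))) := by gcongr
      _ = B2 * P 8 w x := by rw [hB2]; ring
  have hf : |f (u t x)| ≤ B3 * P 8 w x := by
    have h1 := hL.lip (u t x) b
    rw [hb, sub_zero] at h1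
    have h3 := P_le8 (τ := 2) (by norm_num) (by norm_num) hwm hw0 hwb x
    calc |f (u t x)| ≤ K * |z t x| := h1
      _ ≤ K * (Real.exp (2 * K) * P 2 w x) := by gcongr
      _ ≤ K * (Real.exp (2 * K) * (A2 * P 8 w x)) := by gcongr
      _ = B3 * P 8 w x := by rw [hB3]; ring
  have hdt : |dt u t x| ≤ B2 * P 8 w x + B3 * P 8 w x := by
    unfold dt
    rw [hS.sol.eqn t (by linarith) x]
    exact (abs_add_le _ _).trans (add_le_add hlap hf)
  have hfin : gr u t x + |dt u t x| ≤ (1 + B1 + B2 + B3) * P 8 w x := by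
    have := hP0 8 (by norm_num) x
    linarith
  exact hfin

end Pool.Agent.H87.RF.IEU
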