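import Pool.Agent.H91.RF.TargetsA

/-!
# MP_609556_an, module KAPL: slope of the extremal trajectory at the lower platform
-/

open MeasureTheory Set Filter Topology Metric
open Pool.Agent.H91.RD
open Pool.Agent.H91.RF

namespace Pool.Agent.H87.RF.KAPL

/-- a function whose derivative is negative at its zeros is nonnegative to the left of a point
where it is nonnegative -/
theorem left_nonneg {D D' : ℝ → ℝ} {a b : ℝ} (hab : a ≤ b) (hc : ContinuousOn D (Icc a b))
    (hd : ∀ x ∈ Icc a b, D x = 0 → HasDerivAt D (D' x) x ∧ D' x < 0) (hb : 0 ≤ D b) :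
    0 ≤ D a := by
  by_contra hneg
  push Not at hneg
  set S : Set ℝ := Icc a b ∩ D ⁻¹' Ici 0 with hS
  have hSc : IsCompact S := by
    have : IsClosed S := hc.preimage_isClosed_of_isClosed isClosed_Icc isClosed_Ici
    exact isCompact_Icc.of_isClosed_subset this inter_subset_left
  have hSn : S.Nonempty := ⟨b, ⟨⟨hab, le_rfl⟩, hb⟩⟩
  have h0 := hSc.sInf_mem hSn
  set x0 := sInf S with hx0
  have hmin : ∀ x ∈ Ico a x0, D x < 0 := by
    intro x hx
    by_contra h
    push Not at h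
    have : x ∈ S := ⟨⟨hx.1, hx.2.le.trans h0.1.2⟩, h⟩
    exact absurd (csInf_le hSc.bddBelow this) (not_le.2 hx.2)
  have hax : a < x0 := by
    rcases h0.1.1.lt_or_eq with h | h
    · exact h
    · exfalso
      have : 0 ≤ D x0 := h0.2
      rw [← h] at this
      exact absurd this (not_le.2 hneg)
  have hD0 : D x0 = 0 := by
    refine le_antisymm ?_ h0.2
    have h1 : Tendsto D (𝓝[Ico a x0] x0) (𝓝 (D x0)) :=
      (hc x0 h0.1).mono_left (nhdsWithin_mono _ fun x hx => ⟨hx.1, hx.2.le.trans h0.1.2⟩)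
    have h2 : (𝓝[Ico a x0] x0).NeBot := by
      rw [← mem_closure_iff_nhdsWithin_neBot, closure_Ico hax.ne]
      exact ⟨hax.le, le_rfl⟩
    refine le_of_tendsto h1 ?_
    filter_upwards [self_mem_nhdsWithin] with x hx
    exact (hmin x hx).le
  obtain ⟨h1, h2⟩ := hd x0 h0.1 hD0
  have h3 : ∀ᶠ x in 𝓝[≠] x0, slope D x0 x < 0 :=
    (hasDerivAt_iff_tendsto_slope.1 h1).eventually (gt_mem_nhds h2)
  have h4 : ∀ᶠ x in 𝓝[Ico a x0] x0, slope D x0 x < 0 :=
    h3.filter_mono (nhdsWithin_mono _ fun x hx => hx.2.ne)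
  have h5 : (𝓝[Ico a x0] x0).NeBot := by
    rw [← mem_closure_iff_nhdsWithin_neBot, closure_Ico hax.ne]
    exact ⟨hax.le, le_rfl⟩
  obtain ⟨x, hx, hx2⟩ := (h4.and self_mem_nhdsWithin).exists
  have h6 := hmin x hx2
  rw [slope_def_field, hD0, sub_zero] at hx
  have h7 : x - x0 < 0 := by linarith [hx2.2]
  have : 0 < D x / (x - x0) := div_pos_of_neg_of_neg h6 h7
  linarith

/-- no function with `Q' ≤ Q / X - a` and `Q ≤ M X` near `0` -/
theorem no_sol {Q Q' : ℝ → ℝ} {X1 a M : ℝ} (hX1 : 0 < X1) (ha : 0 < a)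
    (hd : ∀ X ∈ Ioo 0 X1, HasDerivAt Q (Q' X) X) (hQ : ∀ X ∈ Ioo 0 X1, Q' X ≤ Q X / X - a)
    (h0 : ∀ X ∈ Ioo 0 X1, 0 ≤ Q X) (hM : ∀ X ∈ Ioo 0 X1, Q X ≤ M * X) : False := by
  have hanti : AntitoneOn (fun X => Q X / X + a * Real.log X) (Ioo 0 X1) := by
    have hd2 : ∀ X ∈ Ioo 0 X1, HasDerivAt (fun X => Q X / X + a * Real.log X)
        ((Q' X * X - Q X * 1) / X ^ 2 + a * X⁻¹) X := by
      intro X hX
      have hX0 : X ≠ 0 := hX.1.ne'
      exact ((hd X hX).div (hasDerivAt_id X) hX0).add ((Real.hasDerivAt_log hX0).const_mul a)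
    refine antitoneOn_of_deriv_nonpos (convex_Ioo 0 X1)
      (fun X hX => (hd2 X hX).continuousAt.continuousWithinAt) ?_ ?_
    · intro X hX
      rw [interior_Ioo] at hX
      exact (hd2 X hX).differentiableAt.differentiableWithinAt
    · intro X hX
      rw [interior_Ioo] at hX
      rw [(hd2 X hX).deriv]
      have hX0 : 0 < X := hX.1
      have h1 := hQ X hX
      have h2 : (Q' X * X - Q X * 1) / X ^ 2 + a * X⁻¹ = (Q' X - Q X / X + a) / X := by
        field_simp
      rw [h2]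
      exact div_nonpos_of_nonpos_of_nonneg (by linarith) hX0.le
  set X2 := X1 / 2 with hX2
  have hX2m : X2 ∈ Ioo 0 X1 := ⟨by positivity, by rw [hX2]; linarith⟩
  set N := (|M| + 1) / a with hN
  have hNpos : 0 < N := by positivity
  set X3 := X2 * Real.exp (-N) with hX3
  have hX3pos : 0 < X3 := mul_pos hX2m.1 (Real.exp_pos _)
  have hX3lt : X3 ≤ X2 := by
    have h1 : Real.exp (-N) ≤ 1 := by
      rw [Real.exp_le_one_iff]; linarith
    have h2 := mul_le_mul_of_nonneg_left h1 hX2m.1.le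
    rw [mul_one] at h2
    exact h2
  have hX3m : X3 ∈ Ioo 0 X1 := ⟨hX3pos, hX3lt.trans_lt hX2m.2⟩
  have h1 := hanti hX3m hX2m hX3lt
  simp only at h1
  have h2 : Real.log X3 = Real.log X2 - N := by
    rw [hX3, Real.log_mul hX2m.1.ne' (Real.exp_pos _).ne', Real.log_exp]
    ring
  rw [h2] at h1
  have h3 : 0 ≤ Q X2 / X2 := div_nonneg (h0 X2 hX2m) hX2m.1.le
  have h4 : Q X3 / X3 ≤ M := by
    rw [div_le_iff₀ hX3pos]
    exact hM X3 hX3m
  have h5 : a * N = |M| + 1 := by
    rw [hN]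
    field_simp
  have h6 := le_abs_self M
  rw [mul_sub, h5] at h1
  linarith

/-- the abstract situation: `Q' = c - g / Q`, `Q(0) = 0`, `g = κ X + o(X)` -/
structure Sit (c κ L : ℝ) (g Q : ℝ → ℝ) : Prop where
  cpos : 0 < c
  Lpos : 0 < L
  cont : ContinuousOn Q (Icc 0 L)
  pos : ∀ X ∈ Ioo 0 L, 0 < Q X
  der : ∀ X ∈ Ioo 0 L, HasDerivAt Q (c - g X / Q X) X
  ex : ∀ ω > 0, ∃ δ > 0, ∀ X, 0 < X → X < δ → |g X - κ * X| ≤ ω * X

/-- barrier -/
theorem barrier {c κ L : ℝ} {g Q : ℝ → ℝ} (h : Sit c κ L g Q) {k ω δ X1 : ℝ} (hk : 0 < k)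
    (hω : ω < k ^ 2 - c * k + κ) (hδ : ∀ X, 0 < X → X < δ → |g X - κ * X| ≤ ω * X)
    (_hX1 : 0 < X1) (hX1δ : X1 < δ) (hX1L : X1 < L) (hQ : k * X1 ≤ Q X1) :
    ∀ X, 0 < X → X ≤ X1 → k * X ≤ Q X := by
  intro X hX hXX
  have := left_nonneg (D := fun X => Q X - k * X) (D' := fun X => c - g X / Q X - k) hXX
    (fun x hx => ((h.cont x ⟨hX.le.trans hx.1, (hx.2.trans_lt hX1L).le⟩).mono
      (fun z hz => ⟨hX.le.trans hz.1, (hz.2.trans_lt hX1L).le⟩)).sub
      (continuous_const.mul continuous_id).continuousWithinAt) ?_ (by simpa using hQ)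
  · simpa using this
  · intro x hx hD
    have hx0 : 0 < x := hX.trans_le hx.1
    have hxL : x ∈ Ioo 0 L := ⟨hx0, hx.2.trans_lt hX1L⟩
    have h1 : HasDerivAt (fun X => k * X) k x := by
      simpa using (hasDerivAt_id x).const_mul k
    refine ⟨(h.der x hxL).sub h1, ?_⟩
    have h2 : Q x = k * x := by
      linarith
    have h3 := hδ x hx0 (hx.2.trans_lt hX1δ)
    have h4 : (κ - ω) * x ≤ g x := by
      have := (abs_le.1 h3).1
      linarith
    have h5 : (κ - ω) / k ≤ g x / Q x := by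
      rw [h2, div_le_div_iff₀ hk (by positivity)]
      have := mul_le_mul_of_nonneg_right h4 hk.le
      linarith
    have h6 : c - k < (κ - ω) / k := by
      rw [lt_div_iff₀ hk]
      linarith
    linarith

/-- upper bound of the slope -/
theorem upper {c κ L : ℝ} {g Q : ℝ → ℝ} (h : Sit c κ L g Q) (h00 : Q 0 = 0) {k : ℝ}
    (hkc : c / 2 < k) (hk : 0 < k ^ 2 - c * k + κ) :
    ∃ δ > 0, ∀ X, 0 < X → X < δ → Q X < k * X := by
  have hk0 : 0 < k := by linarith [h.cpos]
  set p := k ^ 2 - c * k + κ with hp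
  set a := min (p / k) (2 * k - c) with ha
  have ha0 : 0 < a := lt_min (by positivity) (by linarith)
  set ω := min (p / 2) (a * k / 2) with hω
  have hω0 : 0 < ω := lt_min (by positivity) (by positivity)
  have hω1 : ω < p := (min_le_left _ _).trans_lt (by linarith)
  have hω2 : ω ≤ a * k / 2 := min_le_right _ _
  obtain ⟨δ, hδ0, hδ⟩ := h.ex ω hω0
  refine ⟨min δ L, lt_min hδ0 h.Lpos, fun X1 hX1 hX1' => ?_⟩
  by_contra hcon
  push Not at hcon
  have hX1δ : X1 < δ := hX1'.trans_le (min_le_left _ _)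
  have hX1L : X1 < L := hX1'.trans_le (min_le_right _ _)
  have hb := barrier h hk0 hω1 hδ hX1 hX1δ hX1L hcon
  have hsub : ∀ X ∈ Ioo 0 X1, X ∈ Ioo 0 L := fun X hX => ⟨hX.1, hX.2.trans hX1L⟩
  -- `g / Q` from below
  have hgQ : ∀ X ∈ Ioo 0 X1, |g X| / Q X ≤ (|κ| + ω) / k := by
    intro X hX
    have h1 := hδ X hX.1 (hX.2.trans hX1δ)
    have h2 := hb X hX.1 hX.2.le
    have h3 := h.pos X (hsub X hX)
    have h4 : |g X| ≤ (|κ| + ω) * X := by
      have h5 : g X = (g X - κ * X) + κ * X := by ring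
      calc |g X| = |(g X - κ * X) + κ * X| := by rw [← h5]
        _ ≤ |g X - κ * X| + |κ * X| := abs_add_le _ _
        _ ≤ ω * X + |κ| * X := by
            rw [abs_mul, abs_of_pos hX.1]
            linarith
        _ = (|κ| + ω) * X := by ring
    rw [div_le_div_iff₀ h3 hk0]
    have h5 : 0 ≤ |κ| + ω := by positivity
    calc |g X| * k ≤ (|κ| + ω) * X * k := by gcongr
      _ = (|κ| + ω) * (k * X) := by ring
      _ ≤ (|κ| + ω) * Q X := by gcongr
  set M := c + (|κ| + ω) / k with hM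
  have hQM : ∀ X ∈ Ioo 0 X1, Q X ≤ M * X := by
    intro X hX
    have hder : ∀ z ∈ Ioo 0 X, HasDerivAt Q (c - g z / Q z) z := fun z hz =>
      h.der z (hsub z ⟨hz.1, hz.2.trans hX.2⟩)
    obtain ⟨z, hz, hz2⟩ := exists_hasDerivAt_eq_slope Q (fun z => c - g z / Q z) hX.1
      (h.cont.mono fun z hz => ⟨hz.1, hz.2.trans (hX.2.trans hX1L).le⟩) hder
    have h1 := hgQ z ⟨hz.1, hz.2.trans hX.2⟩
    have h2 : -(|g z| / Q z) ≤ g z / Q z := by
      have h3 := h.pos z (hsub z ⟨hz.1, hz.2.trans hX.2⟩)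
      rw [← neg_div, div_le_div_iff_of_pos_right h3]
      exact neg_abs_le _
    rw [h00, sub_zero, sub_zero] at hz2
    have h4 : Q X / X ≤ M := by
      rw [← hz2, hM]
      linarith
    rwa [div_le_iff₀ hX.1] at h4
  refine no_sol (Q := Q) (Q' := fun X => c - g X / Q X) (a := a / 2) (M := M) hX1 (by positivity)
    (fun X hX => h.der X (hsub X hX)) ?_ (fun X hX => (h.pos X (hsub X hX)).le) hQM
  intro X hX
  have h1 := hδ X hX.1 (hX.2.trans hX1δ)
  have h2 := hb X hX.1 hX.2.le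
  have h3 := h.pos X (hsub X hX)
  have hX0 := hX.1
  set r := Q X / X with hr
  have hrk : k ≤ r := by
    rw [hr, le_div_iff₀ hX0]
    exact h2
  have hr0 : 0 < r := hk0.trans_le hrk
  have hQr : Q X = r * X := by
    rw [hr]
    field_simp
  have h4 : (κ - ω) / r ≤ g X / Q X := by
    rw [hQr, div_le_div_iff₀ hr0 (by positivity)]
    have h11 : (κ - ω) * X ≤ g X := by
      have := (abs_le.1 h1).1
      linarith
    have := mul_le_mul_of_nonneg_right h11 hr0.le
    linarith
  -- the quadratic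
  have h5 : a * r ≤ r ^ 2 - c * r + κ := by
    have h6 : a ≤ p / k := min_le_left _ _
    have h7 : a ≤ 2 * k - c := min_le_right _ _
    have h8 : a * k ≤ p := by
      rwa [le_div_iff₀ hk0] at h6
    have h9 : a * (r - k) ≤ (2 * k - c) * (r - k) :=
      mul_le_mul_of_nonneg_right h7 (by linarith)
    linarith [sq_nonneg (r - k)]
  have h10 : c - r + a / 2 ≤ (κ - ω) / r := by
    rw [le_div_iff₀ hr0]
    have h11 : a * k / 2 ≤ a * r / 2 := by
      have := mul_le_mul_of_nonneg_left hrk ha0.le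
      linarith
    linarith
  linarith

/-- lower bound of the slope in the degenerate case -/
theorem lowerA {c κ L : ℝ} {g Q : ℝ → ℝ} (h : Sit c κ L g Q) (hκ : 4 * κ = c ^ 2) {k : ℝ}
    (hk0 : 0 < k) (hkc : k < c / 2) :
    ∃ δ > 0, ∀ X, 0 < X → X < δ → k * X ≤ Q X := by
  set p := k ^ 2 - c * k + κ with hp
  have hp0 : 0 < p := by
    have : p = (c / 2 - k) ^ 2 := by
      rw [hp]
      linear_combination hκ / 4
    rw [this]
    have : 0 < c / 2 - k := by linarith
    positivity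
  obtain ⟨δ, hδ0, hδ⟩ := h.ex (p / 2) (by positivity)
  have hω1 : p / 2 < k ^ 2 - c * k + κ := by rw [← hp]; linarith
  set X1 := min δ L with hX1
  have hX10 : 0 < X1 := lt_min hδ0 h.Lpos
  by_cases hex : ∃ X2, 0 < X2 ∧ X2 < X1 ∧ k * X2 ≤ Q X2
  · obtain ⟨X2, h1, h2, h3⟩ := hex
    exact ⟨X2, h1, fun X hX hX' => barrier h hk0 hω1 hδ h1 (h2.trans_le (min_le_left _ _))
      (h2.trans_le (min_le_right _ _)) h3 X hX hX'.le⟩
  · exfalso
    push Not at hex
    have hsub : ∀ X ∈ Ioo 0 X1, X ∈ Ioo 0 L := fun X hX =>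
      ⟨hX.1, hX.2.trans_le (min_le_right _ _)⟩
    refine no_sol (Q := Q) (Q' := fun X => c - g X / Q X) (a := p / (2 * k)) (M := k) hX10
      (by positivity) (fun X hX => h.der X (hsub X hX)) ?_
      (fun X hX => (h.pos X (hsub X hX)).le) (fun X hX => (hex X hX.1 hX.2).le)
    intro X hX
    have h1 := hδ X hX.1 (hX.2.trans_le (min_le_left _ _))
    have h3 := h.pos X (hsub X hX)
    have h2 := hex X hX.1 hX.2
    have hX0 := hX.1
    set r := Q X / X with hr
    have hrk : r < k := by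
      rw [hr, div_lt_iff₀ hX0]
      exact h2
    have hr0 : 0 < r := by positivity
    have hQr : Q X = r * X := by
      rw [hr]
      field_simp
    have h4 : (κ - p / 2) / r ≤ g X / Q X := by
      rw [hQr, div_le_div_iff₀ hr0 (by positivity)]
      have h11 : (κ - p / 2) * X ≤ g X := by
        have := (abs_le.1 h1).1
        linarith
      have := mul_le_mul_of_nonneg_right h11 hr0.le
      linarith
    have h5 : p ≤ r ^ 2 - c * r + κ := by
      rw [hp]
      have := mul_nonneg (sub_nonneg.2 hrk.le) (show 0 ≤ c - k - r by linarith)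
      linarith
    have h6 : c - r + p / (2 * k) ≤ (κ - p / 2) / r := by
      rw [le_div_iff₀ hr0]
      have h7 : p / (2 * k) * r ≤ p / 2 := by
        rw [div_mul_eq_mul_div, div_le_div_iff₀ (by positivity) (by norm_num)]
        have := mul_le_mul_of_nonneg_left hrk.le hp0.le
        linarith
      linarith
    linarith

/-- a trajectory of a smaller speed which is below the line `k X` at one point stays there -/
theorem below {c' ω κ L δ X1 k : ℝ} {g R : ℝ → ℝ} (hk : 0 < k) (hc : k ^ 2 - c' * k + κ + ω < 0)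
    (hcont : ContinuousOn R (Icc 0 L))
    (hder : ∀ X ∈ Ioo 0 L, HasDerivAt R (c' - g X / R X) X)
    (hδ : ∀ X, 0 < X → X < δ → |g X - κ * X| ≤ ω * X)
    (hX1 : 0 < X1) (hX1δ : X1 < δ) (hX1L : X1 < L) (hR : R X1 ≤ k * X1) :
    R 0 ≤ 0 := by
  have key : ∀ X, 0 < X → X ≤ X1 → R X ≤ k * X := by
    intro X hX hXX
    have := left_nonneg (D := fun X => k * X - R X) (D' := fun X => k - (c' - g X / R X)) hXX
      (fun x hx => ((continuous_const.mul continuous_id).continuousWithinAt).sub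
        ((hcont x ⟨hX.le.trans hx.1, (hx.2.trans_lt hX1L).le⟩).mono
        (fun z hz => ⟨hX.le.trans hz.1, (hz.2.trans_lt hX1L).le⟩))) ?_ (by simpa using hR)
    · simpa using this
    · intro x hx hD
      have hx0 : 0 < x := hX.trans_le hx.1
      have hxL : x ∈ Ioo 0 L := ⟨hx0, hx.2.trans_lt hX1L⟩
      have h1 : HasDerivAt (fun X => k * X) k x := by
        simpa using (hasDerivAt_id x).const_mul k
      refine ⟨h1.sub (hder x hxL), ?_⟩
      have h2 : R x = k * x := by
        linarith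
      have h3 := hδ x hx0 (hx.2.trans_lt hX1δ)
      have h4 : g x ≤ (κ + ω) * x := by
        have := (abs_le.1 h3).2
        linarith
      have h5 : g x / R x ≤ (κ + ω) / k := by
        rw [h2, div_le_div_iff₀ (by positivity) hk]
        have := mul_le_mul_of_nonneg_right h4 hk.le
        linarith
      have h6 : (κ + ω) / k < c' - k := by
        rw [div_lt_iff₀ hk]
        linarith
      linarith
  have h1 : Tendsto R (𝓝[Ioc 0 X1] 0) (𝓝 (R 0)) :=
    (hcont 0 ⟨le_rfl, (hX1.trans hX1L).le⟩).mono_left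
      (nhdsWithin_mono _ fun x hx => ⟨hx.1.le, hx.2.trans hX1L.le⟩)
  have h2 : (𝓝[Ioc 0 X1] (0 : ℝ)).NeBot := by
    rw [← mem_closure_iff_nhdsWithin_neBot, closure_Ioc hX1.ne]
    exact ⟨le_rfl, hX1.le⟩
  have h3 : Tendsto (fun X : ℝ => k * X) (𝓝[Ioc 0 X1] 0) (𝓝 0) := by
    have : Tendsto (fun X : ℝ => k * X) (𝓝 0) (𝓝 (k * 0)) :=
      (continuous_const.mul continuous_id).tendsto 0
    rw [mul_zero] at this
    exact this.mono_left nhdsWithin_le_nhds
  refine le_of_tendsto_of_tendsto h1 h3 ?_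
  filter_upwards [self_mem_nhdsWithin] with x hx
  exact key x hx.1 hx.2

/-! ### The trajectories -/

/-- the platforms are increasing -/
theorem ter_mono {f : ℝ → ℝ} {J : ℕ} {b c : ℕ → ℝ} {y : ℕ → ℝ → ℝ} (h : Ter f J b c y) :
    ∀ i k, i + k ≤ J → b i ≤ b (i + k) := by
  intro i k
  induction k with
  | zero => intro _; exact le_rfl
  | succ k ih =>
    intro hk
    have h1 := ih (by omega)
    have h2 := h.lt (i + k) (by omega)
    exact h1.trans h2.le

theorem traj_cont {f : ℝ → ℝ} {B β c : ℝ} {y : ℝ → ℝ} (hy : IsYb f B c y) (hβ : 0 ≤ β) :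
    ContinuousOn (fun X => √(2 * y (B - (β + X)))) (Icc 0 (B - β)) := by
  refine Real.continuous_sqrt.comp_continuousOn (continuousOn_const.mul ?_)
  refine hy.2.1.comp (by fun_prop) fun X hX => ?_
  exact ⟨by linarith [hX.2], by linarith [hX.1]⟩

theorem traj_der {f : ℝ → ℝ} {B β c : ℝ} {y : ℝ → ℝ} (hy : IsYb f B c y) (hβ : 0 ≤ β)
    {X : ℝ} (hX : X ∈ Ioo 0 (B - β)) (hpos : 0 < y (B - (β + X))) :
    HasDerivAt (fun X => √(2 * y (B - (β + X))))
      (c - f (β + X) / √(2 * y (B - (β + X)))) X := by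
  have h1 : HasDerivAt (fun X : ℝ => B - (β + X)) (-1) X := by
    have := ((hasDerivAt_id X).const_add β).const_sub B
    simpa using this
  have h2 := hy.2.2 (B - (β + X)) ⟨by linarith [hX.2], by linarith [hX.1]⟩
  have h3 : HasDerivAt (fun X => y (B - (β + X)))
      ((f (B - (B - (β + X))) - c * √(2 * max (y (B - (β + X))) 0)) * -1) X := h2.comp X h1
  have h4 := (h3.const_mul 2).sqrt (by positivity)
  have h5 : B - (B - (β + X)) = β + X := by ring
  rw [h5, max_eq_left hpos.le] at h4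
  convert h4 using 1
  have h6 : 0 < √(2 * y (B - (β + X))) := Real.sqrt_pos.2 (by positivity)
  field_simp
  ring

theorem g_ex {f : ℝ → ℝ} (hR : Reaction f) {β L : ℝ} (hβ : 0 ≤ β) (hL : 0 < L)
    (hβ1 : β + L ≤ 1) (hf : f β = 0) :
    ∀ ω > 0, ∃ δ > 0, ∀ X, 0 < X → X < δ → |f (β + X) - fp f β * X| ≤ ω * X := by
  intro ω hω
  have hmem : β ∈ Icc (0 : ℝ) 1 := ⟨hβ, by linarith⟩
  have h1 : HasDerivWithinAt f (fp f β) (Icc 0 1) β :=
    ((hR.smooth.differentiableOn (by norm_num)) β hmem).hasDerivWithinAt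
  rw [hasDerivWithinAt_iff_isLittleO] at h1
  have h2 := h1.def hω
  rw [eventually_nhdsWithin_iff, Metric.eventually_nhds_iff] at h2
  obtain ⟨δ, hδ, h3⟩ := h2
  refine ⟨min δ L, lt_min hδ hL, fun X hX hX' => ?_⟩
  have h4 := h3 (y := β + X) (by
    rw [Real.dist_eq, add_sub_cancel_left, abs_of_pos hX]
    exact hX'.trans_le (min_le_left _ _)) ⟨by linarith, by
      have := hX'.trans_le (min_le_right _ _)
      linarith⟩
  rw [hf, sub_zero, add_sub_cancel_left, smul_eq_mul, Real.norm_eq_abs, Real.norm_eq_abs,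
    abs_of_pos hX, mul_comm X] at h4
  exact h4

theorem X (hYEX : T_YEX) (hYCMP : T_YCMP) : T_KAPL := by
  intro f K J b c y hR hL hT j hj ε hε
  set β := b j with hβdef
  set B := b (j + 1) with hBdef
  have hβ0 : 0 ≤ β := by
    have := ter_mono hT 0 j (by omega)
    rw [hT.b0, zero_add] at this
    exact this
  have hB1 : B ≤ 1 := by
    have := ter_mono hT (j + 1) (J - (j + 1)) (by omega)
    rw [show j + 1 + (J - (j + 1)) = J by omega, hT.bJ] at this
    exact this
  have hβB : β < B := hT.lt j hj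
  have hL0 : 0 < B - β := by linarith
  have hext := hT.ext j hj
  have hy := hext.isy
  set κ := fp f β with hκ
  set Q : ℝ → ℝ := fun X => √(2 * y j (B - (β + X))) with hQ
  have hypos : ∀ X ∈ Ioo 0 (B - β), 0 < y j (B - (β + X)) := fun X hX =>
    hT.pos j hj _ ⟨by linarith [hX.2], by linarith [hX.1]⟩
  have hS : Sit (c j) κ (B - β) (fun X => f (β + X)) Q := by
    refine ⟨hext.cpos, hL0, traj_cont hy hβ0, fun X hX => ?_, fun X hX => ?_, ?_⟩
    · have := hypos X hX
      exact Real.sqrt_pos.2 (by positivity)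
    · exact traj_der hy hβ0 hX (hypos X hX)
    · exact g_ex hR hβ0 hL0 (by linarith) (hT.zer j hj.le)
  have hQ0 : Q 0 = 0 := by
    rw [hQ]
    simp only [add_zero]
    rw [hT.hit j hj, mul_zero, Real.sqrt_zero]
  have hkap := hT.kap j hj
  have hc := hext.cpos
  set s0 := √(c j ^ 2 - 4 * κ) with hs0
  have hs0n : 0 ≤ s0 := Real.sqrt_nonneg _
  have hs0sq : s0 ^ 2 = c j ^ 2 - 4 * κ := Real.sq_sqrt (by linarith)
  obtain ⟨δ1, hδ1, hup⟩ := upper hS hQ0 (k := (c j + s0) / 2 + ε) (by linarith) (by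
    have h1 : ((c j + s0) / 2 + ε) ^ 2 - c j * ((c j + s0) / 2 + ε) + κ = s0 * ε + ε ^ 2 := by
      linear_combination hs0sq / 4
    rw [h1]
    positivity)
  have hlow : ∃ δ2 > 0, ∀ X, 0 < X → X < δ2 → ((c j + s0) / 2 - ε) * X ≤ Q X := by
    by_cases hcase : 4 * κ = c j ^ 2
    · have hs00 : s0 = 0 := by
        have : s0 ^ 2 = 0 := by rw [hs0sq]; linarith
        exact pow_eq_zero_iff (two_ne_zero) |>.1 this
      obtain ⟨δ2, hδ2, h2⟩ := lowerA hS hcase (k := max (c j / 2 - ε) (c j / 4))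
        (lt_max_of_lt_right (by positivity)) (max_lt (by linarith) (by linarith))
      refine ⟨δ2, hδ2, fun X hX hX' => (mul_le_mul_of_nonneg_right ?_ hX.le).trans (h2 X hX hX')⟩
      rw [hs00, add_zero]
      exact le_max_left _ _
    · have hs0p : 0 < s0 := by
        refine Real.sqrt_pos.2 ?_
        have := lt_of_le_of_ne hkap hcase
        linarith
      set k := max ((c j + s0) / 2 - ε) (c j / 2) with hk
      have hk1 : c j / 2 ≤ k := le_max_right _ _
      have hk2 : k < (c j + s0) / 2 := max_lt (by linarith) (by linarith)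
      have hk0 : 0 < k := by linarith
      have hp : k ^ 2 - c j * k + κ < 0 := by
        have h1 : k ^ 2 - c j * k + κ = (k - c j / 2) ^ 2 - (s0 / 2) ^ 2 := by
          linear_combination hs0sq / 4
        have h2 : (k - c j / 2) ^ 2 < (s0 / 2) ^ 2 :=
          pow_lt_pow_left₀ (by linarith) (by linarith) two_ne_zero
        linarith
      set ω := -(k ^ 2 - c j * k + κ) / (2 * (k + 1)) with hω
      have hω0 : 0 < ω := div_pos (by linarith) (by positivity)
      have hω1 : ω * (k + 1) = -(k ^ 2 - c j * k + κ) / 2 := by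
        rw [hω]
        field_simp
      obtain ⟨δ, hδ0, hδ⟩ := hS.ex ω hω0
      refine ⟨min δ (B - β), lt_min hδ0 hL0, fun X1 hX1 hX1' => ?_⟩
      refine le_trans (mul_le_mul_of_nonneg_right (le_max_left _ (c j / 2)) hX1.le) ?_
      rw [← hk]
      by_contra hcon
      push Not at hcon
      have hX1δ : X1 < δ := hX1'.trans_le (min_le_left _ _)
      have hX1L : X1 < B - β := hX1'.trans_le (min_le_right _ _)
      have hy1 := hypos X1 ⟨hX1, hX1L⟩
      have hQsq : Q X1 ^ 2 = 2 * y j (B - (β + X1)) := Real.sq_sqrt (by positivity)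
      have hQ1 : 0 ≤ Q X1 := Real.sqrt_nonneg _
      set e := ((k * X1) ^ 2 - Q X1 ^ 2) / 2 with he
      have he0 : 0 < e := by
        have : Q X1 ^ 2 < (k * X1) ^ 2 := by gcongr
        rw [he]
        linarith
      set q := √(2 * K) with hq
      have hq0 : 0 ≤ q := Real.sqrt_nonneg _
      set d := min ω (min (c j) (e / (q + 1))) with hd
      have hd0 : 0 < d := lt_min hω0 (lt_min hc (by positivity))
      have hd1 : d ≤ ω := min_le_left _ _
      have hd2 : d ≤ c j := (min_le_right _ _).trans (min_le_left _ _)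
      have hd3 : d * (q + 1) ≤ e := by
        have : d ≤ e / (q + 1) := (min_le_right _ _).trans (min_le_right _ _)
        rwa [le_div_iff₀ (by positivity)] at this
      have hfB : f B = 0 := hT.zer (j + 1) hj
      have hB0 : 0 < B := by linarith
      obtain ⟨y', hy'⟩ := hYEX f K B (c j - d) hL hB0 hB1 hfB (by linarith)
      have hcmp := hYCMP f K B hL hB0 hB1 hfB (c j - d) (c j) y' (y j) (by linarith)
        (by linarith) hy' hy
      have hbel := hext.below (c j - d) (by linarith) (by linarith) y' hy'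
      have hτ : B - (β + X1) ∈ Icc 0 B := ⟨by linarith, by linarith⟩
      have h1 := (hcmp _ hτ).2
      have hR1 : √(2 * y' (B - (β + X1))) ≤ k * X1 := by
        rw [Real.sqrt_le_left (by positivity)]
        linarith
      have := below (c' := c j - d) (ω := ω) (κ := κ) (L := B - β) (δ := δ) (X1 := X1) (k := k)
        (g := fun X => f (β + X)) (R := fun X => √(2 * y' (B - (β + X)))) hk0 (by
          have := mul_le_mul_of_nonneg_right hd1 hk0.le
          linarith)
        (traj_cont hy' hβ0) (fun X hX => traj_der hy' hβ0 hX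
          (hbel _ ⟨by linarith [hX.2], by linarith [hX.1]⟩)) hδ hX1 hX1δ hX1L hR1
      have h2 : 0 < √(2 * y' (B - (β + 0))) := by
        have := hbel (B - (β + 0)) ⟨by linarith, by linarith⟩
        exact Real.sqrt_pos.2 (by positivity)
      exact absurd this (not_le.2 h2)
  obtain ⟨δ2, hδ2, hlow⟩ := hlow
  refine ⟨min δ1 δ2, lt_min hδ1 hδ2, fun s hs1 hs2 => ?_⟩
  have hX0 : 0 < s - β := by linarith
  have h1 : s - β < δ1 := by
    have := min_le_left δ1 δ2
    linarith
  have h2 : s - β < δ2 := by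
    have := min_le_right δ1 δ2
    linarith
  have h3 := hlow (s - β) hX0 h2
  have h4 := hup (s - β) hX0 h1
  have h5 : Q (s - β) = √(2 * y j (B - s)) := by
    rw [hQ]
    simp only
    rw [add_sub_cancel]
  rw [h5] at h3 h4
  exact ⟨h3, h4.le⟩

end Pool.Agent.H87.RF.KAPL
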